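import Mathlib
import Pool.Agent.H66.FKS.Strong

set_option autoImplicit false

namespace Pool.Agent.Results.MP_7c8b7e_co.FurediKahnSeymourStrong

open Finset

/-- A finite multi-hypergraph on `V` is a map `H : E → Finset V` from a finite type `E` of edge
occurrences. A matching is a set of edge occurrences whose edges are pairwise disjoint. -/
def IsMatching {V E : Type} (H : E → Finset V) (M : Finset E) : Prop :=
  ∀ e ∈ M, ∀ f ∈ M, e ≠ f → Disjoint (H e) (H f)

/-- A fractional edge colouring: nonnegative weights, supported on matchings, such that every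
edge occurrence is covered with total weight at least `1`. -/
def IsFracColoring {V E : Type} [Fintype E] [DecidableEq E] (H : E → Finset V)
    (w : Finset E → ℝ) : Prop :=
  (∀ M, 0 ≤ w M) ∧ (∀ M, w M ≠ 0 → IsMatching H M) ∧ ∀ e, 1 ≤ ∑ M with e ∈ M, w M

/-- The fractional chromatic index: the infimum of the total weights of fractional edge
colourings. -/
noncomputable def fracChromaticIndex {V E : Type} [Fintype E] [DecidableEq E]
    (H : E → Finset V) : ℝ :=
  sInf {x : ℝ | ∃ w : Finset E → ℝ, IsFracColoring H w ∧ ∑ M, w M = x}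

/-- **The Füredi-Kahn-Seymour conjecture**, in its sampling form. Let `H` be a finite
multi-hypergraph with nonempty edges.

* The conjecture: the fractional chromatic index is at most the maximum over the vertices `v` of
  `∑_{e ∋ v} (|e| - 1 + 1/|e|)`, and a fractional edge colouring of at most this total weight
  exists.
* For all demands `p ≥ 0` there is a weight function on the matchings which covers every `e` with
  weight exactly `p e`, of total weight `max_v ∑_{e ∋ v} (|e| - 1 + 1/|e|) p e`.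
* For every fractional matching `x` there is a probability distribution on the matchings for which
  every `e` belongs to the random matching with probability exactly `x e / (|e| - 1 + 1/|e|)`.
* For every fractional matching `x` and all real weights `c` there is a matching `M` with
  `∑ x e c e ≤ ∑_{e ∈ M} (|e| - 1 + 1/|e|) c e`. -/
theorem result : ∀ (V E : Type) [Fintype V] [DecidableEq V] [Fintype E] [DecidableEq E]
    (H : E → Finset V), (∀ e, (H e).Nonempty) →
    ((∃ w : Finset E → ℝ, IsFracColoring H w ∧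
        ∑ M, w M ≤ ⨆ v : V, ∑ e with v ∈ H e, (((H e).card : ℝ) - 1 + 1 / ((H e).card : ℝ))) ∧
      fracChromaticIndex H ≤
        ⨆ v : V, ∑ e with v ∈ H e, (((H e).card : ℝ) - 1 + 1 / ((H e).card : ℝ))) ∧
    (∀ p : E → ℝ, (∀ e, 0 ≤ p e) → ∃ w : Finset E → ℝ, (∀ M, 0 ≤ w M) ∧
      (∀ M, w M ≠ 0 → IsMatching H M) ∧ (∀ e, ∑ M with e ∈ M, w M = p e) ∧
      ∑ M, w M = ⨆ v : V, ∑ e with v ∈ H e,
        (((H e).card : ℝ) - 1 + 1 / ((H e).card : ℝ)) * p e) ∧
    ∀ x : E → ℝ, (∀ e, 0 ≤ x e) → (∀ v, ∑ f with v ∈ H f, x f ≤ 1) →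
      (∃ w : Finset E → ℝ, (∀ M, 0 ≤ w M) ∧ (∀ M, w M ≠ 0 → IsMatching H M) ∧ ∑ M, w M = 1 ∧
        ∀ e, ∑ M with e ∈ M, w M = x e / (((H e).card : ℝ) - 1 + 1 / ((H e).card : ℝ))) ∧
      ∀ c : E → ℝ, ∃ M : Finset E, IsMatching H M ∧
        ∑ e, x e * c e ≤ ∑ e ∈ M, (((H e).card : ℝ) - 1 + 1 / ((H e).card : ℝ)) * c e := by
  intro V E _ _ _ _ H hne
  refine ⟨?_, fun p hp => H66.FKS.demands H hne p hp, fun x hx hdeg =>
    ⟨H66.FKS.sampling' H hne x hx hdeg, fun c => H66.FKS.weighted H hne x hx hdeg c⟩⟩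
  obtain ⟨w, hw0, hws, hwc, hle⟩ := H66.FKS.demands H hne (fun _ => 1) fun _ => zero_le_one
  simp only [mul_one] at hle
  have hw' : IsFracColoring H w := ⟨hw0, hws, fun e => (hwc e).ge⟩
  refine ⟨⟨w, hw', hle.le⟩, le_trans ?_ hle.le⟩
  refine csInf_le ⟨0, ?_⟩ ⟨w, hw', rfl⟩
  rintro y ⟨w', hw1, rfl⟩
  exact sum_nonneg fun M _ => hw1.1 M

end Pool.Agent.Results.MP_7c8b7e_co.FurediKahnSeymourStrong
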